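import Pool.Agent.N594.NT.Stm3

/-!
# NT/REL: from families of sets to averages, equality (helper135 for helper594)
-/

set_option autoImplicit false

open Finset
open scoped Classical

namespace Pool.Agent.N135.NT.REL

open Pool.Agent.TH200.LP Pool.Agent.N594.CT Pool.Agent.N442.ES Pool.Agent.N594.NT

/-- the sequences with a given edge -/
lemma fib {V : Type} [Fintype V] (d : ℕ) (e : Finset V) (he : e.card = d + 2) (x y : V)
    (hxy : x ≠ y) (hx : x ∈ e) (hy : y ∈ e) :
    (univ.filter fun z : Fin d → V => insert x (insert y (univ.image z)) = e).card =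
      d.factorial := by
  have hy' : y ∈ e.erase x := mem_erase.2 ⟨hxy.symm, hy⟩
  have hc : ((e.erase x).erase y).card = d := by
    rw [card_erase_of_mem hy', card_erase_of_mem hx, he]
    omega
  have h1 : Fintype.card (Fin d ↪ {v // v ∈ (e.erase x).erase y}) = d.factorial := by
    rw [Fintype.card_embedding_eq, Fintype.card_coe, hc, Fintype.card_fin,
      Nat.descFactorial_self]
  have h2 : (univ.filter fun z : Fin d → V => insert x (insert y (univ.image z)) = e) =
      (univ : Finset (Fin d ↪ {v // v ∈ (e.erase x).erase y})).image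
        (fun g => fun a => (g a).1) := by
    ext z
    rw [mem_filter, mem_image]
    constructor
    · rintro ⟨-, hz⟩
      have hsub : (e.erase x).erase y ⊆ univ.image z := by
        intro v hv
        rw [mem_erase, mem_erase] at hv
        have hve := hv.2.2
        rw [← hz, mem_insert, mem_insert] at hve
        rcases hve with h | h | h
        · exact absurd h hv.2.1
        · exact absurd h hv.1
        · exact h
      have hcz : (univ.image z).card ≤ d := by
        have := card_image_le (s := (univ : Finset (Fin d))) (f := z)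
        rwa [card_univ, Fintype.card_fin] at this
      have heq : (e.erase x).erase y = univ.image z :=
        eq_of_subset_of_card_le hsub (by rw [hc]; exact hcz)
      have hinj : Function.Injective z := by
        have h3 : (univ.image z).card = (univ : Finset (Fin d)).card := by
          rw [← heq, hc, card_univ, Fintype.card_fin]
        have h4 := card_image_iff.1 h3
        exact fun a b hab => h4 (mem_coe.2 (mem_univ a)) (mem_coe.2 (mem_univ b)) hab
      refine ⟨⟨fun a => ⟨z a, ?_⟩, fun a b hab => hinj (congrArg Subtype.val hab)⟩,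
        mem_univ _, rfl⟩
      rw [heq]
      exact mem_image_of_mem z (mem_univ a)
    · rintro ⟨g, -, rfl⟩
      refine ⟨mem_univ _, ?_⟩
      have hinj : Function.Injective fun a => (g a).1 := fun a b hab =>
        g.injective (Subtype.ext hab)
      have himg : univ.image (fun a => (g a).1) = (e.erase x).erase y := by
        refine eq_of_subset_of_card_le ?_ ?_
        · intro v hv
          obtain ⟨a, -, rfl⟩ := mem_image.mp hv
          exact (g a).2
        · rw [card_image_of_injective _ hinj, card_univ, Fintype.card_fin, hc]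
      rw [himg, insert_erase hy', insert_erase hx]
  rw [h2, card_image_of_injective, card_univ, h1]
  intro g g' h
  exact DFunLike.ext _ _ fun a => Subtype.ext (congrFun h a)

/-- the sequences which complete a pair to an edge -/
lemma seq_eq {V : Type} [Fintype V] (d : ℕ) (G : Finset (Finset V)) (hG : ∀ e ∈ G, e.card = d + 2)
    (H : Finset V → Prop) (hH : ∀ Z, H Z ↔ Z ∈ G) (x y : V) (hxy : x ≠ y) :
    (univ.filter fun z : Fin d → V => H (insert x (insert y (univ.image z)))).card =
      d.factorial * (G.filter fun e => x ∈ e ∧ y ∈ e).card := by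
  rw [card_eq_sum_card_fiberwise (f := fun z : Fin d → V => insert x (insert y (univ.image z)))
    (t := G.filter fun e => x ∈ e ∧ y ∈ e)]
  · rw [mul_comm, ← smul_eq_mul, ← sum_const]
    refine sum_congr rfl fun e he => ?_
    rw [mem_filter] at he
    rw [← fib d e (hG e he.1) x y hxy he.2.1 he.2.2, filter_filter]
    congr 1
    ext z
    rw [mem_filter, mem_filter]
    constructor
    · rintro ⟨h1, h2, h3⟩
      exact ⟨h1, h3⟩
    · rintro ⟨h1, h3⟩
      exact ⟨h1, (hH _).2 (h3 ▸ he.1), h3⟩
  · intro z hz
    rw [mem_coe, mem_filter] at hz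
    rw [mem_coe, mem_filter]
    exact ⟨(hH _).1 hz.2, mem_insert_self _ _, mem_insert_of_mem (mem_insert_self _ _)⟩

/-- pairs and ordered pairs -/
lemma pairs {V : Type} [Fintype V] (F : Finset V → ℝ) :
    2 * ∑ X ∈ (univ : Finset V).powersetCard 2, F X =
      ∑ p ∈ (univ : Finset (V × V)).filter (fun p => p.1 ≠ p.2), F {p.1, p.2} := by
  rw [← sum_fiberwise_of_maps_to (s := (univ : Finset (V × V)).filter (fun p => p.1 ≠ p.2))
    (g := fun p : V × V => ({p.1, p.2} : Finset V)) (t := (univ : Finset V).powersetCard 2),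
    mul_sum]
  · refine sum_congr rfl fun X hX => ?_
    obtain ⟨a, b, hab, rfl⟩ := card_eq_two.1 (mem_powersetCard.1 hX).2
    have h1 : ∑ p ∈ ((univ : Finset (V × V)).filter (fun p => p.1 ≠ p.2)).filter
        (fun p => ({p.1, p.2} : Finset V) = {a, b}), F {p.1, p.2} =
        ∑ p ∈ ((univ : Finset (V × V)).filter (fun p => p.1 ≠ p.2)).filter
        (fun p => ({p.1, p.2} : Finset V) = {a, b}), F {a, b} :=
      sum_congr rfl fun p hp => by rw [(mem_filter.1 hp).2]
    have h2 : ({(a, b), (b, a)} : Finset (V × V)) =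
        ((univ : Finset (V × V)).filter (fun p => p.1 ≠ p.2)).filter
        (fun p => ({p.1, p.2} : Finset V) = {a, b}) := by
      ext p
      rw [mem_insert, mem_singleton, mem_filter, mem_filter]
      constructor
      · rintro (rfl | rfl)
        · exact ⟨⟨mem_univ _, hab⟩, rfl⟩
        · exact ⟨⟨mem_univ _, hab.symm⟩, pair_comm b a⟩
      · rintro ⟨⟨-, h3⟩, h4⟩
        have h5 : p.1 ∈ ({a, b} : Finset V) := h4 ▸ mem_insert_self _ _
        have h6 : p.2 ∈ ({a, b} : Finset V) := h4 ▸ mem_insert_of_mem (mem_singleton_self _)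
        rw [mem_insert, mem_singleton] at h5 h6
        rcases h5 with h5 | h5 <;> rcases h6 with h6 | h6
        · exact absurd (h5.trans h6.symm) h3
        · exact Or.inl (Prod.ext h5 h6)
        · exact Or.inr (Prod.ext h5 h6)
        · exact absurd (h5.trans h6.symm) h3
    rw [h1, sum_const, nsmul_eq_mul, ← h2, card_pair (fun h => hab (congrArg Prod.fst h))]
    norm_num
  · intro p hp
    rw [mem_powersetCard]
    exact ⟨subset_univ _, card_pair (mem_filter.1 hp).2⟩

lemma cdg_eq {V : Type} [Fintype V] [Nonempty V] (d : ℕ) (H : Finset V → Prop) (x y : V) :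
    cdg d H x y * (Fintype.card V : ℝ) ^ d = ((univ.filter fun z : Fin d → V =>
      H (insert x (insert y (univ.image z)))).card : ℝ) := by
  have hV : (Fintype.card V : ℝ) ≠ 0 := by
    have := Fintype.card_pos (α := V)
    positivity
  unfold cdg av ind
  rw [sum_boole, Fintype.card_fun, Fintype.card_fin, Nat.cast_pow,
    div_mul_cancel₀ _ (pow_ne_zero d hV)]

lemma cdg_self {V : Type} [Fintype V] [Nonempty V] (d : ℕ) (G : Finset (Finset V))
    (hG : ∀ e ∈ G, e.card = d + 2) (x : V) : cdg d (fun Z => Z ∈ G) x x = 0 := by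
  unfold cdg
  have h : ∀ z : Fin d → V, ind (insert x (insert x (univ.image z)) ∈ G) = 0 := by
    intro z
    refine ind_false fun h => ?_
    have h1 := hG _ h
    rw [insert_idem] at h1
    have h2 := card_insert_le x (univ.image z)
    have h3 := card_image_le (s := (univ : Finset (Fin d))) (f := z)
    rw [card_univ, Fintype.card_fin] at h3
    omega
  simp only [h]
  exact av_const 0

theorem main : Pool.Agent.N594.NT.S_REL := by
  intro d n p G hd hn hp hG
  have hne : Nonempty (Fin n) := ⟨⟨0, by omega⟩⟩
  have hn0 : (n : ℝ) ≠ 0 := by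
    have : n ≠ 0 := by omega
    exact_mod_cast this
  have h1 : ∀ g : Fin n → Fin n → ℝ, (n : ℝ) ^ 2 * (av fun x : Fin n => av fun y : Fin n => g x y) =
      ∑ q : Fin n × Fin n, g q.1 q.2 := by
    intro g
    rw [Fintype.sum_prod_type]
    unfold av
    rw [Fintype.card_fin, ← sum_div]
    field_simp
  rw [h1, nsum, pairs, ← sum_filter_add_sum_filter_not (univ : Finset (Fin n × Fin n))
    (fun q => q.1 ≠ q.2)]
  have h2 : ∑ q ∈ (univ : Finset (Fin n × Fin n)).filter (fun q => ¬ q.1 ≠ q.2),
      (cdg d (fun Z => Z ∈ G) q.1 q.2 / (((n - 2).descFactorial d : ℝ) / (n : ℝ) ^ d)) ^ p = 0 := by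
    refine sum_eq_zero fun q hq => ?_
    rw [mem_filter, not_not] at hq
    rw [hq.2, cdg_self d G hG, zero_div, Real.zero_rpow (by linarith)]
  rw [h2, add_zero]
  refine sum_congr (by ext q; simp only [mem_filter]) fun q hq => ?_
  rw [mem_filter] at hq
  congr 1
  have h3 := cdg_eq d (fun Z : Finset (Fin n) => Z ∈ G) q.1 q.2
  rw [seq_eq d G hG (fun Z : Finset (Fin n) => Z ∈ G) (fun Z => Iff.rfl) q.1 q.2 hq.2,
    Fintype.card_fin] at h3
  have h4 : ∀ X : Finset (Fin n), (∀ e : Finset (Fin n), X ⊆ e ↔ q.1 ∈ e ∧ q.2 ∈ e) →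
      degr G X = (G.filter fun e => q.1 ∈ e ∧ q.2 ∈ e).card := by
    intro X hX
    unfold degr
    congr 1
    ext e
    simp only [mem_filter, hX]
  have h5 : ((n - 2).descFactorial d : ℝ) = (d.factorial : ℝ) * ((n - 2).choose d : ℝ) := by
    rw [Nat.descFactorial_eq_factorial_mul_choose, Nat.cast_mul]
  have hC : ((n - 2).choose d : ℝ) ≠ 0 := by
    have := Nat.choose_pos (n := n - 2) (k := d) (by omega)
    positivity
  have hf : (d.factorial : ℝ) ≠ 0 := by
    have := Nat.factorial_pos d
    positivity
  rw [h4 _ fun e => by simp only [subset_iff, mem_insert, mem_singleton, forall_eq_or_imp,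
    forall_eq], h5, show d + 2 - 2 = d by omega, div_div_eq_mul_div, h3, Nat.cast_mul,
    mul_div_mul_left _ _ hf]
  have h6 : ∀ A B : Finset (Finset (Fin n)), (∀ e, e ∈ A ↔ e ∈ B) →
      (A.card : ℝ) / ((n - 2).choose d : ℝ) = (B.card : ℝ) / ((n - 2).choose d : ℝ) :=
    fun A B h => by rw [Finset.ext h]
  exact h6 _ _ fun e => by simp only [mem_filter]

end Pool.Agent.N135.NT.REL
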